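import Pool.Agent.H976R3.HPL.Asm

/-!
# The infinite half-plane self-avoiding walk exists on the triangular and hexagonal grids

`TriG`, `HexG`: the triangular and the hexagonal grid with edge length one and a vertex at `0`;
`rot u Λ`: the grid multiplied by `u`; `LineCond`: a horizontal line through a vertex never meets
the relative interior of an edge which it does not contain; `PW Λ r n`: the self-avoiding walks with
`n` steps of length `r` in the grid `Λ`, starting at `0` and staying in the closed upper half-plane
(a walk is continued by its last point). All are defined in `Pool/Agent/H976R3/HPL/Plane.lean`.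
-/

set_option autoImplicit false

namespace Pool.Agent.Results.MP_df1d0b_pr.HalfPlaneLimit

open Filter Topology MeasureTheory Pool.Agent.H976R3.HPL

/-- For every placement of the triangular or the hexagonal grid with a vertex at `0` such that a
horizontal line through a vertex never meets the relative interior of an edge which it does not
contain: the uniform measures on `n`-step half-plane self-avoiding walks from `0` converge weakly, as
`n → ∞`, to a probability measure on infinite self-avoiding walks in the closed half-plane. -/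
theorem result (u : ℂ) (hu : u ≠ 0) (Λ : Set ℂ) (hΛ : Λ = rot u TriG ∨ Λ = rot u HexG)
    (hline : LineCond Λ ‖u‖) :
    ∃ μ : Measure (ℕ → ℂ), IsProbabilityMeasure μ ∧
      (∀ᵐ γ ∂μ, γ 0 = 0 ∧ (∀ i, γ i ∈ Λ ∧ 0 ≤ (γ i).im) ∧ (∀ i, ‖γ (i + 1) - γ i‖ = ‖u‖) ∧
        Function.Injective γ) ∧
      (∀ (k : ℕ) (η : ℕ → ℂ), Tendsto (fun n =>
        (({γ ∈ PW Λ ‖u‖ n | ∀ i ≤ k, γ i = η i}).ncard : ℝ) / ((PW Λ ‖u‖ n).ncard : ℝ)) atTop
          (𝓝 (μ.real {γ | ∀ i ≤ k, γ i = η i}))) ∧
      ∀ F : BoundedContinuousFunction (ℕ → ℂ) ℝ,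
        Tendsto (fun n => (∑ᶠ γ ∈ PW Λ ‖u‖ n, F γ) / ((PW Λ ‖u‖ n).ncard : ℝ)) atTop
          (𝓝 (∫ γ, F γ ∂μ)) :=
  main u Λ hu hΛ hline

end Pool.Agent.Results.MP_df1d0b_pr.HalfPlaneLimit
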